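import Pool.Agent.L5helper98.CG.Defs

/-! MOM: convergence in law and a bounded higher moment give convergence of moments. -/

set_option autoImplicit false

open MeasureTheory ProbabilityTheory Filter Topology Set
open scoped ENNReal BoundedContinuousFunction

namespace Pool.Agent.L5helper67.CG

open Pool.Agent.L5helper98.CG

noncomputable section

/-- bounded continuous functions below `t ^ a` -/
theorem law_le {Ω : ℝ → Type} [∀ ε, MeasurableSpace (Ω ε)] {P : ∀ ε, Measure (Ω ε)}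
    (hP : ∀ ε, IsProbabilityMeasure (P ε)) {Z : ∀ ε, Ω ε → ℝ}
    (hZ : ∀ᶠ ε in 𝓝[>] (0 : ℝ), AEMeasurable (Z ε) (P ε) ∧ ∀ᵐ x ∂(P ε), 0 < Z ε x)
    {Ω' : Type} [MeasurableSpace Ω'] {P' : Measure Ω'} [IsProbabilityMeasure P'] {Y : Ω' → ℝ}
    (hY : AEMeasurable Y P')
    (hlaw : ∀ f : ℝ →ᵇ ℝ, Tendsto (fun ε => ∫ x, f (Z ε x) ∂(P ε)) (𝓝[>] 0)
      (𝓝 (∫ y, f (Y y) ∂P'))) {a : ℝ} {B : ℝ≥0∞} (hB : B < ∞)
    (hbd : ∀ᶠ ε in 𝓝[>] (0 : ℝ), ∫⁻ x, ENNReal.ofReal (Z ε x ^ a) ∂(P ε) ≤ B)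
    (g : ℝ →ᵇ ℝ) (hg0 : ∀ t, 0 ≤ g t) (hg : ∀ t, 0 < t → g t ≤ t ^ a) :
    ∫⁻ y, ENNReal.ofReal (g (Y y)) ∂P' ≤ B := by
  have h1 : ∫ y, g (Y y) ∂P' ≤ B.toReal := by
    refine le_of_tendsto (hlaw g) ?_
    filter_upwards [hZ, hbd] with ε hε hε'
    have := hP ε
    rw [integral_eq_lintegral_of_nonneg_ae (Eventually.of_forall fun x => hg0 _)
      (g.continuous.comp_aestronglyMeasurable hε.1.aestronglyMeasurable)]
    refine ENNReal.toReal_mono hB.ne (le_trans (lintegral_mono_ae ?_) hε')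
    filter_upwards [hε.2] with x hx
    exact ENNReal.ofReal_le_ofReal (hg _ hx)
  have h2 : Integrable (fun y => g (Y y)) P' :=
    Integrable.of_bound (g.continuous.comp_aestronglyMeasurable hY.aestronglyMeasurable) ‖g‖
      (Eventually.of_forall fun y => g.norm_coe_le_norm _)
  rw [← ofReal_integral_eq_lintegral_ofReal h2 (Eventually.of_forall fun y => hg0 _)]
  exact (ENNReal.ofReal_le_ofReal h1).trans (ENNReal.ofReal_toReal hB.ne).le

/-- the truncated powers from below -/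
def low (a : ℝ) (n : ℕ) (t : ℝ) : ℝ :=
  min (n : ℝ) ((max t (if a < 0 then 1 / ((n : ℝ) + 1) else 0)) ^ a)

theorem low_cont (a : ℝ) (n : ℕ) : Continuous (low a n) := by
  unfold low
  refine continuous_const.min ?_
  by_cases ha : a < 0
  · rw [if_pos ha]
    refine (continuous_id.max continuous_const).rpow_const fun t => Or.inl ?_
    have h1 : (0 : ℝ) < 1 / ((n : ℝ) + 1) := by positivity
    exact (lt_of_lt_of_le h1 (le_max_right _ _)).ne'
  · rw [if_neg ha]
    exact (continuous_id.max continuous_const).rpow_const fun t => Or.inr (not_lt.1 ha)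

theorem low_nonneg (a : ℝ) (n : ℕ) (t : ℝ) : 0 ≤ low a n t := by
  unfold low
  refine le_min (Nat.cast_nonneg n) (Real.rpow_nonneg ?_ _)
  refine le_trans ?_ (le_max_right _ _)
  split <;> positivity

theorem low_le (a : ℝ) (n : ℕ) {t : ℝ} (ht : 0 < t) : low a n t ≤ t ^ a := by
  unfold low
  refine (min_le_right _ _).trans ?_
  by_cases ha : a < 0
  · rw [if_pos ha]
    exact Real.rpow_le_rpow_of_nonpos ht (le_max_left _ _) ha.le
  · rw [if_neg ha, max_eq_left ht.le]

/-- the truncated powers as bounded continuous functions -/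
def lowB (a : ℝ) (n : ℕ) : ℝ →ᵇ ℝ :=
  BoundedContinuousFunction.ofNormedAddCommGroup (low a n) (low_cont a n) n fun t => by
    rw [Real.norm_of_nonneg (low_nonneg a n t)]
    exact min_le_left _ _

theorem low_tendsto (a : ℝ) {t : ℝ} (ht : 0 < t) :
    Tendsto (fun n : ℕ => low a n t) atTop (𝓝 (t ^ a)) := by
  refine tendsto_const_nhds.congr' ?_
  have h1 : ∀ᶠ n : ℕ in atTop, t ^ a ≤ (n : ℝ) :=
    (tendsto_natCast_atTop_atTop (R := ℝ)).eventually_ge_atTop _
  have h2 : ∀ᶠ n : ℕ in atTop, 1 / ((n : ℝ) + 1) < t :=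
    (tendsto_one_div_add_atTop_nhds_zero_nat (𝕜 := ℝ)).eventually_lt_const ht
  filter_upwards [h1, h2] with n hn1 hn2
  unfold low
  have h3 : max t (if a < 0 then 1 / ((n : ℝ) + 1) else 0) = t := by
    split
    · exact max_eq_left hn2.le
    · exact max_eq_left ht.le
  rw [h3, min_eq_right hn1]

theorem low_tendsto_top {a : ℝ} (ha : a < 0) {t : ℝ} (ht : t ≤ 0) :
    Tendsto (fun n : ℕ => low a n t) atTop atTop := by
  have h0 : ∀ n : ℕ, low a n t = min (n : ℝ) (((n : ℝ) + 1) ^ (-a)) := by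
    intro n
    unfold low
    have h1 : (0 : ℝ) < 1 / ((n : ℝ) + 1) := by positivity
    rw [if_pos ha, max_eq_right (ht.trans h1.le), one_div, Real.inv_rpow (by positivity),
      Real.rpow_neg (by positivity)]
  simp_rw [h0]
  have e1 : Tendsto (fun n : ℕ => (n : ℝ)) atTop atTop := tendsto_natCast_atTop_atTop
  have e2 : Tendsto (fun n : ℕ => ((n : ℝ) + 1) ^ (-a)) atTop atTop :=
    (tendsto_rpow_atTop (by linarith)).comp (tendsto_atTop_add_const_right _ _ e1)
  refine tendsto_atTop.2 fun b => ?_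
  filter_upwards [e1.eventually_ge_atTop b, e2.eventually_ge_atTop b] with n h1 h2
  exact le_min h1 h2

/-- the truncated powers -/
def clp (N t : ℝ) : ℝ := max (1 / N) (min t N)

theorem clp_pos {N : ℝ} (hN : 1 ≤ N) (t : ℝ) : 0 < clp N t :=
  lt_of_lt_of_le (by positivity) (le_max_left _ _)

theorem clp_cont {N : ℝ} (hN : 1 ≤ N) (q : ℝ) : Continuous fun t => clp N t ^ q := by
  refine Continuous.rpow_const ?_ fun t => Or.inl (clp_pos hN t).ne'
  unfold clp
  exact continuous_const.max (continuous_id.min continuous_const)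

theorem clp_le {N : ℝ} (hN : 1 ≤ N) (t : ℝ) : clp N t ≤ N := by
  unfold clp
  refine max_le ?_ (min_le_right _ _)
  rw [div_le_iff₀ (by linarith)]
  nlinarith

theorem clp_bound {N : ℝ} (hN : 1 ≤ N) (q t : ℝ) : clp N t ^ q ≤ N ^ |q| := by
  rcases le_total 0 q with hq | hq
  · rw [abs_of_nonneg hq]
    exact Real.rpow_le_rpow (clp_pos hN t).le (clp_le hN t) hq
  · rw [abs_of_nonpos hq]
    have h1 : clp N t ^ q ≤ (1 / N) ^ q :=
      Real.rpow_le_rpow_of_nonpos (by positivity) (le_max_left _ _) hq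
    refine h1.trans (le_of_eq ?_)
    rw [one_div, Real.inv_rpow (by linarith), Real.rpow_neg (by linarith)]

/-- the truncated powers as bounded continuous functions -/
def clpB {N : ℝ} (hN : 1 ≤ N) (q : ℝ) : ℝ →ᵇ ℝ :=
  BoundedContinuousFunction.ofNormedAddCommGroup (fun t => clp N t ^ q) (clp_cont hN q) (N ^ |q|)
    fun t => by
      rw [Real.norm_of_nonneg (Real.rpow_nonneg (clp_pos hN t).le _)]
      exact clp_bound hN q t

/-- the error of the truncation -/
theorem clp_err {N : ℝ} (hN : 1 ≤ N) {q q' t : ℝ} (h1 : 0 < q → q < q')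
    (h2 : q < 0 → q' < q) (hq : q ≠ 0) (ht : 0 < t) :
    |t ^ q - clp N t ^ q| ≤ N ^ (-|q|) + N ^ (-|q' - q|) * t ^ q' := by
  have hN0 : (0 : ℝ) < N := by linarith
  have hN1 : 1 / N ≤ N := by
    rw [div_le_iff₀ hN0]
    nlinarith
  have hNi : (0 : ℝ) < 1 / N := by positivity
  have p1 : 0 ≤ N ^ (-|q|) := Real.rpow_nonneg hN0.le _
  have p2 : 0 ≤ N ^ (-|q' - q|) * t ^ q' :=
    mul_nonneg (Real.rpow_nonneg hN0.le _) (Real.rpow_nonneg ht.le _)
  have hsplit : t ^ q = t ^ q' * t ^ (q - q') := by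
    rw [← Real.rpow_add ht]
    congr 1
    ring
  have hinv : ∀ a : ℝ, (1 / N) ^ a = N ^ (-a) := by
    intro a
    rw [one_div, Real.inv_rpow hN0.le, Real.rpow_neg hN0.le]
  rcases lt_or_ge t (1 / N) with hlo | hlo
  · have hc : clp N t = 1 / N := by
      unfold clp
      rw [min_eq_left (hlo.le.trans hN1), max_eq_left hlo.le]
    rw [hc]
    rcases lt_or_gt_of_ne hq with hq0 | hq0
    · -- q < 0 : t ^ q is the larger one
      have e1 : (1 / N) ^ q ≤ t ^ q := Real.rpow_le_rpow_of_nonpos ht hlo.le hq0.le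
      have e2 : 0 ≤ (1 / N) ^ q := Real.rpow_nonneg hNi.le _
      have e3 : t ^ (q - q') ≤ (1 / N) ^ (q - q') :=
        Real.rpow_le_rpow ht.le hlo.le (by linarith [h2 hq0])
      rw [abs_of_nonneg (by linarith)]
      have e4 : |q' - q| = q - q' := by
        rw [abs_of_neg (by linarith [h2 hq0])]
        ring
      rw [e4, ← hinv (q - q')]
      have e5 : t ^ q ≤ (1 / N) ^ (q - q') * t ^ q' := by
        rw [hsplit, mul_comm]
        exact mul_le_mul_of_nonneg_right e3 (Real.rpow_nonneg ht.le _)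
      linarith
    · have e1 : t ^ q ≤ (1 / N) ^ q := Real.rpow_le_rpow ht.le hlo.le hq0.le
      have e2 : 0 ≤ t ^ q := Real.rpow_nonneg ht.le _
      rw [abs_of_nonpos (by linarith), abs_of_pos hq0, ← hinv]
      linarith
  · rcases lt_or_ge N t with hhi | hhi
    · have hc : clp N t = N := by
        unfold clp
        rw [min_eq_right hhi.le, max_eq_right hN1]
      rw [hc]
      rcases lt_or_gt_of_ne hq with hq0 | hq0
      · have e1 : t ^ q ≤ N ^ q := Real.rpow_le_rpow_of_nonpos hN0 hhi.le hq0.le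
        have e2 : 0 ≤ t ^ q := Real.rpow_nonneg ht.le _
        rw [abs_of_nonpos (by linarith), abs_of_neg hq0, neg_neg]
        linarith
      · have e1 : N ^ q ≤ t ^ q := Real.rpow_le_rpow hN0.le hhi.le hq0.le
        have e2 : 0 ≤ N ^ q := Real.rpow_nonneg hN0.le _
        have e3 : t ^ (q - q') ≤ N ^ (q - q') :=
          Real.rpow_le_rpow_of_nonpos hN0 hhi.le (by linarith [h1 hq0])
        rw [abs_of_nonneg (by linarith)]
        have e4 : -|q' - q| = q - q' := by
          rw [abs_of_pos (by linarith [h1 hq0])]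
          ring
        rw [e4]
        have e5 : t ^ q ≤ N ^ (q - q') * t ^ q' := by
          rw [hsplit, mul_comm]
          exact mul_le_mul_of_nonneg_right e3 (Real.rpow_nonneg ht.le _)
        linarith
    · have hc : clp N t = t := by
        unfold clp
        rw [min_eq_left hhi, max_eq_right hlo]
      rw [hc, sub_self, abs_zero]
      exact add_nonneg p1 p2

/-- truncation of a moment -/
theorem mom_err {Ω : Type} [MeasurableSpace Ω] {P : Measure Ω} [IsProbabilityMeasure P]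
    {Z : Ω → ℝ} (hZ : AEMeasurable Z P) (hpos : ∀ᵐ x ∂P, 0 < Z x) {q q' : ℝ} (hq : q ≠ 0)
    (h1 : 0 < q → q < q') (h2 : q < 0 → q' < q) {B : ℝ≥0∞} (hB : B < ∞)
    (hbd : ∫⁻ x, ENNReal.ofReal (Z x ^ q') ∂P ≤ B) :
    Integrable (fun x => Z x ^ q) P ∧ ∀ {N : ℝ} (hN : 1 ≤ N),
      |∫ x, Z x ^ q ∂P - ∫ x, clpB hN q (Z x) ∂P| ≤ N ^ (-|q|) + N ^ (-|q' - q|) * B.toReal := by
  have hnn : ∀ a : ℝ, 0 ≤ᵐ[P] fun x => Z x ^ a := by
    intro a
    filter_upwards [hpos] with x hx
    exact Real.rpow_nonneg hx.le _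
  have hi' : Integrable (fun x => Z x ^ q') P := by
    refine ⟨(hZ.pow_const q').aestronglyMeasurable, ?_⟩
    rw [hasFiniteIntegral_iff_ofReal (hnn q')]
    exact lt_of_le_of_lt hbd hB
  have hval : ∫ x, Z x ^ q' ∂P ≤ B.toReal := by
    rw [integral_eq_lintegral_of_nonneg_ae (hnn q') (hZ.pow_const q').aestronglyMeasurable]
    exact ENNReal.toReal_mono hB.ne hbd
  have hcl : ∀ {N : ℝ} (hN : 1 ≤ N), Integrable (fun x => clpB hN q (Z x)) P := by
    intro N hN
    exact Integrable.of_bound ((clpB hN q).continuous.comp_aestronglyMeasurable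
      hZ.aestronglyMeasurable) ‖clpB hN q‖
      (Eventually.of_forall fun x => (clpB hN q).norm_coe_le_norm _)
  have herr : ∀ {N : ℝ} (hN : 1 ≤ N), ∀ᵐ x ∂P,
      |Z x ^ q - clpB hN q (Z x)| ≤ N ^ (-|q|) + N ^ (-|q' - q|) * Z x ^ q' := by
    intro N hN
    filter_upwards [hpos] with x hx
    exact clp_err hN h1 h2 hq hx
  have hi : Integrable (fun x => Z x ^ q) P := by
    have e1 : Integrable (fun x => Z x ^ q - clpB le_rfl q (Z x)) P := by
      refine Integrable.mono' ((integrable_const ((1 : ℝ) ^ (-|q|))).add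
        (hi'.const_mul ((1 : ℝ) ^ (-|q' - q|)))) ?_ ?_
      · exact ((hZ.pow_const q).aestronglyMeasurable).sub (hcl le_rfl).aestronglyMeasurable
      · filter_upwards [herr (le_refl (1 : ℝ))] with x hx
        rw [Real.norm_eq_abs]
        exact hx
    have e2 := e1.add (hcl (le_refl (1 : ℝ)))
    refine e2.congr (Eventually.of_forall fun x => ?_)
    simp
  refine ⟨hi, fun {N} hN => ?_⟩
  have hN0 : (0 : ℝ) < N := by linarith
  rw [← integral_sub hi (hcl hN)]
  calc |∫ x, (Z x ^ q - clpB hN q (Z x)) ∂P| ≤ ∫ x, |Z x ^ q - clpB hN q (Z x)| ∂P :=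
        abs_integral_le_integral_abs
    _ ≤ ∫ x, (N ^ (-|q|) + N ^ (-|q' - q|) * Z x ^ q') ∂P := by
        refine integral_mono_ae ((hi.sub (hcl hN)).abs) ((integrable_const _).add
          (hi'.const_mul _)) (herr hN)
    _ = N ^ (-|q|) + N ^ (-|q' - q|) * ∫ x, Z x ^ q' ∂P := by
        rw [integral_add (integrable_const _) (hi'.const_mul _), integral_const, integral_const_mul]
        simp
    _ ≤ N ^ (-|q|) + N ^ (-|q' - q|) * B.toReal := by
        have := mul_le_mul_of_nonneg_left hval (Real.rpow_nonneg hN0.le (-|q' - q|))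
        linarith

theorem MOM_holds : St_MOM := by
  intro Ω _ P hP Z hZ Ω' _ P' _ Y hY hlaw q hq B1 B2 q' s hB1 hB2 h1 h2 hs hb1 hb2
  -- positivity
  have hYpos : ∀ᵐ y ∂P', 0 < Y y := by
    have e1 : ∫⁻ y, liminf (fun n : ℕ => ENNReal.ofReal (low s n (Y y))) atTop ∂P' ≤ B2 := by
      refine (lintegral_liminf_le' fun n => ?_).trans ?_
      · exact ((low_cont s n).measurable.comp_aemeasurable hY).ennreal_ofReal
      · refine liminf_le_of_frequently_le' (Frequently.of_forall fun n => ?_)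
        exact law_le hP hZ hY hlaw hB2 hb2 (lowB s n) (low_nonneg s n) fun t ht => low_le s n ht
    have e2 : AEMeasurable (fun y => liminf (fun n : ℕ => ENNReal.ofReal (low s n (Y y))) atTop)
        P' :=
      (Measurable.liminf fun n => (low_cont s n).measurable.ennreal_ofReal).comp_aemeasurable hY
    filter_upwards [ae_lt_top' e2 (lt_of_le_of_lt e1 hB2).ne] with y hy
    by_contra hneg
    rw [not_lt] at hneg
    have e3 : Tendsto (fun n : ℕ => ENNReal.ofReal (low s n (Y y))) atTop (𝓝 ∞) :=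
      ENNReal.tendsto_ofReal_atTop.comp (low_tendsto_top hs hneg)
    rw [e3.liminf_eq] at hy
    exact lt_irrefl _ hy
  -- the moment of order q' of the limit
  have hbY : ∫⁻ y, ENNReal.ofReal (Y y ^ q') ∂P' ≤ B1 := by
    have e1 : ∫⁻ y, liminf (fun n : ℕ => ENNReal.ofReal (low q' n (Y y))) atTop ∂P' ≤ B1 := by
      refine (lintegral_liminf_le' fun n => ?_).trans ?_
      · exact ((low_cont q' n).measurable.comp_aemeasurable hY).ennreal_ofReal
      · refine liminf_le_of_frequently_le' (Frequently.of_forall fun n => ?_)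
        exact law_le hP hZ hY hlaw hB1 hb1 (lowB q' n) (low_nonneg q' n) fun t ht => low_le q' n ht
    refine le_trans (le_of_eq (lintegral_congr_ae ?_)) e1
    filter_upwards [hYpos] with y hy
    have e3 : Tendsto (fun n : ℕ => ENNReal.ofReal (low q' n (Y y))) atTop
        (𝓝 (ENNReal.ofReal (Y y ^ q'))) :=
      (ENNReal.continuous_ofReal.tendsto _).comp (low_tendsto q' hy)
    exact e3.liminf_eq.symm
  obtain ⟨hYi, hYe⟩ := mom_err hY hYpos hq h1 h2 hB1 hbY
  have hZe : ∀ᶠ ε in 𝓝[>] (0 : ℝ), Integrable (fun x => Z ε x ^ q) (P ε) ∧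
      ∀ {N : ℝ} (hN : 1 ≤ N), |∫ x, Z ε x ^ q ∂(P ε) - ∫ x, clpB hN q (Z ε x) ∂(P ε)| ≤
        N ^ (-|q|) + N ^ (-|q' - q|) * B1.toReal := by
    filter_upwards [hZ, hb1] with ε hε hε'
    have := hP ε
    exact mom_err hε.1 hε.2 hq h1 h2 hB1 hε'
  refine ⟨hYpos, hYi, hZe.mono fun ε h => h.1, ?_⟩
  rw [Metric.tendsto_nhds]
  intro η hη
  have hqq : q' - q ≠ 0 := by
    rcases lt_or_gt_of_ne hq with h | h
    · have h3 := h2 h
      exact (by linarith : q' - q < 0).ne
    · have h3 := h1 h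
      exact (by linarith : (0 : ℝ) < q' - q).ne'
  have hlim : Tendsto (fun N : ℝ => N ^ (-|q|) + N ^ (-|q' - q|) * B1.toReal) atTop (𝓝 0) := by
    have e1 := (tendsto_rpow_neg_atTop (abs_pos.2 hq)).add
      ((tendsto_rpow_neg_atTop (abs_pos.2 hqq)).mul_const B1.toReal)
    simpa using e1
  obtain ⟨N, hN3, hN1⟩ := ((hlim.eventually_lt_const (by positivity : (0 : ℝ) < η / 3)).and
    (eventually_ge_atTop (1 : ℝ))).exists
  have hl := (Metric.tendsto_nhds.1 (hlaw (clpB hN1 q))) (η / 3) (by positivity)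
  filter_upwards [hl, hZe] with ε e1 e2
  have e3 := (e2.2 hN1)
  have e4 := hYe hN1
  rw [Real.dist_eq] at e1 ⊢
  have e5 := abs_le.1 e3
  have e6 := abs_le.1 e4
  have e7 := abs_lt.1 e1
  rw [abs_lt]
  constructor <;> linarith [e5.1, e5.2, e6.1, e6.2, e7.1, e7.2]

end

end Pool.Agent.L5helper67.CG
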